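import Mathlib

set_option autoImplicit false

namespace Pool.Agent.Results.MP_968b24_an.Both

open Filter Topology Finset

/-- Iterated differences. -/
def D (l : ℕ → ℝ) : ℕ → ℕ → ℝ
  | 0, n => l n
  | k + 1, n => D l k n - D l k (n + 1)

/-- Fully monotonic sequences. -/
def FullyMono (l : ℕ → ℝ) : Prop := ∀ k ≥ 1, ∀ n, 0 ≤ D l k n

/-- `l` is admissible for `s`, the weighted means converging to `L`. -/
def Adm (s l : ℕ → ℝ) (L : ℝ) : Prop :=
  (∀ n, 0 < l n) ∧ Tendsto (fun N => ∑ n ∈ range N, l n) atTop atTop ∧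
    Tendsto (fun N => (∑ n ∈ range (N + 1), l n * s n) / ∑ n ∈ range (N + 1), l n) atTop (𝓝 L)

noncomputable def A (s : ℕ → ℝ) (t : ℝ) : ℝ := ∑' n, (1 - t) * t ^ n * s n

theorem geo {t : ℝ} (h0 : 0 ≤ t) (h1 : t < 1) (N : ℕ) :
    HasSum (fun n => (1 - t) * t ^ (n + N)) (t ^ N) := by
  have := (hasSum_geometric_of_lt_one h0 h1).mul_left ((1 - t) * t ^ N)
  rw [mul_right_comm, mul_inv_cancel₀ (sub_pos.mpr h1).ne', one_mul] at this
  simpa only [pow_add, mul_assoc, mul_comm (t ^ N)] using this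

theorem tail {t B : ℝ} (h0 : 0 ≤ t) (h1 : t < 1) {s : ℕ → ℝ} (h : ∀ n, |s n| ≤ B) (N : ℕ) :
    |A s t - ∑ n ∈ range N, (1 - t) * t ^ n * s n| ≤ t ^ N * B := by
  have b : ∀ n, ‖(1 - t) * t ^ n * s n‖ ≤ (1 - t) * t ^ n * B := fun n => by
    have := sub_pos.mpr h1
    rw [norm_mul, Real.norm_of_nonneg (by positivity)]
    exact mul_le_mul_of_nonneg_left (h n) (by positivity)
  rw [A, ← (((geo h0 h1 0).mul_right B).summable.of_norm_bounded b).sum_add_tsum_nat_add N,
    add_sub_cancel_left]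
  exact tsum_of_norm_bounded ((geo h0 h1 N).mul_right B) fun n => b _

theorem main {B L : ℝ} {s : ℕ → ℝ} (h : ∀ n, |s n| ≤ B)
    (c : ∀ ε > 0, ∀ a < 1, ∃ t, a < t ∧ t < 1 ∧ |A s t - L| < ε) :
    ∃ l, Adm s l L ∧ FullyMono l := by
  choose! f f1 f2 f3 using c
  obtain ⟨t, t0, ht⟩ : ∃ t : ℕ → ℝ, t 0 = 1 / 2 ∧ ∀ k, t (k + 1) = f ((1 / 2) ^ k) √(t k) :=
    ⟨Nat.rec (1 / 2) fun k x => f ((1 / 2) ^ k) √x, rfl, fun _ => rfl⟩
  have a : ∀ k, 1 / 2 ≤ t k ∧ t k < 1 := fun k => by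
    induction k with
    | zero => rw [t0]; norm_num
    | succ k ih =>
      have := (Real.sqrt_lt' one_pos).mpr (ih.2.trans_eq (one_pow 2).symm)
      exact ht k ▸ ⟨(Real.le_sqrt_of_sq_le (by linarith [ih.1])).trans (f1 _ (by positivity) _ this).le,
        f2 _ (by positivity) _ this⟩
  have p : ∀ k, 0 < t k := fun k => by linarith [(a k).1]
  have q : ∀ k, 0 < 1 - t k := fun k => by linarith [(a k).2]
  have b : ∀ k, √(t k) < 1 := fun k => (Real.sqrt_lt' one_pos).mpr ((a k).2.trans_eq (one_pow 2).symm)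
  have b1 : ∀ k, t k ≤ t (k + 1) ^ 2 := fun k =>
    ((Real.sqrt_lt' (p _)).mp (ht k ▸ f1 _ (by positivity) _ (b k))).le
  have b2 : ∀ k, |A s (t (k + 1)) - L| ≤ (1 / 2) ^ k := fun k =>
    ht k ▸ (f3 _ (by positivity) _ (b k)).le
  have e : ∀ N K, ∑ k ∈ range K, t (k + 1) ^ N * (1 - t (k + 1) ^ N) ≤ 1 := fun N K =>
    (sum_le_sum (g := fun k => t (k + 1) ^ N - t k ^ N) fun k _ => by
      have := pow_le_pow_left₀ (p k).le (b1 k) N
      rw [← pow_mul, mul_comm, pow_mul] at this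
      linarith).trans (by
        rw [sum_range_sub (fun k => t k ^ N)]
        linarith [pow_le_one₀ (n := N) (p K).le (a K).2.le, pow_pos (p 0) N])
  have u : Summable fun k => 1 - t (k + 1) := summable_of_sum_range_le (c := 2) (fun k => (q _).le)
    fun K => (sum_le_sum (g := fun k => 2 * (t (k + 1) ^ 1 * (1 - t (k + 1) ^ 1))) fun k _ => by
      nlinarith [a (k + 1)]).trans (by rw [← mul_sum]; linarith [e 1 K])
  have v : ∀ j n, Summable fun k => (1 - t (k + 1)) ^ (j + 1) * t (k + 1) ^ n := fun j n =>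
    u.of_nonneg_of_le (fun k => by have := p (k + 1); have := q (k + 1); positivity) fun k => by
      have := q (k + 1)
      rw [pow_succ', mul_assoc]
      exact mul_le_of_le_one_right this.le (mul_le_one₀ (pow_le_one₀ this.le (by linarith [p (k + 1)]))
        (pow_pos (p _) _).le (pow_le_one₀ (p _).le (a _).2.le))
  have w : ∀ n, Summable fun k => (1 - t (k + 1)) * t (k + 1) ^ n := fun n => by simpa using v 0 n
  let l := fun n => ∑' k, (1 - t (k + 1)) * t (k + 1) ^ n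
  have l0 : ∀ n, 0 < l n := fun n => (w n).tsum_pos (fun k => (mul_pos (q _) (pow_pos (p _) _)).le)
    0 (mul_pos (q _) (pow_pos (p _) _))
  have g : ∀ (x : ℝ) N, ∑ n ∈ range N, (1 - x) * x ^ n = 1 - x ^ N := fun x N => by
    rw [← mul_sum, mul_neg_geom_sum]
  have i : Tendsto (fun N => ∑ n ∈ range N, l n) atTop atTop := tendsto_atTop.mpr fun M => by
    obtain ⟨K, hK⟩ := exists_nat_gt M
    have := tendsto_finsetSum (range K) fun k _ => (tendsto_pow_atTop_nhds_zero_of_lt_one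
      (p (k + 1)).le (a _).2).const_sub 1
    refine (this.eventually (lt_mem_nhds (a := M) (by simpa using hK))).mono fun N c => c.le.trans ?_
    simp only [← g]
    rw [sum_comm]
    exact sum_le_sum fun n _ => (w n).sum_le_tsum _ fun k _ => (mul_pos (q _) (pow_pos (p _) _)).le
  have B0 := (abs_nonneg _).trans (h 0)
  have k : ∀ N, |∑ n ∈ range N, l n * s n - L * ∑ n ∈ range N, l n| ≤ 2 + 2 * (B + |L|) := by
    intro N
    have := (hasSum_sum (s := range N) fun n _ => (w n).hasSum.mul_right (s n)).sub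
      ((hasSum_sum (s := range N) fun n _ => (w n).hasSum).mul_left L)
    refine le_of_tendsto' this.tendsto_sum_nat.abs fun K => (abs_sum_le_sum_abs _ _).trans
      ((sum_le_sum (g := fun k => (1 / 2) ^ k + 2 * (B + |L|) * (t (k + 1) ^ N *
        (1 - t (k + 1) ^ N))) fun k _ => ?_).trans ?_)
    · have c1 := tail (p (k + 1)).le (a _).2 h N
      have c2 : |∑ n ∈ range N, (1 - t (k + 1)) * t (k + 1) ^ n * s n| ≤ (1 - t (k + 1) ^ N) * B := by
        rw [← g, sum_mul]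
        refine (abs_sum_le_sum_abs _ _).trans (sum_le_sum fun n _ => ?_)
        rw [abs_mul, abs_of_pos (mul_pos (q _) (pow_pos (p _) _))]
        exact mul_le_mul_of_nonneg_left (h n) (mul_pos (q _) (pow_pos (p _) _)).le
      have c3 := b2 k
      have y0 := pow_pos (p (k + 1)) N
      have y1 := sub_nonneg.mpr (pow_le_one₀ (n := N) (p (k + 1)).le (a _).2.le)
      rw [g]
      generalize ∑ n ∈ range N, (1 - t (k + 1)) * t (k + 1) ^ n * s n = E at *
      generalize t (k + 1) ^ N = y at *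
      generalize A s (t (k + 1)) = X at *
      generalize (1 / 2 : ℝ) ^ k = ε at *
      rw [abs_le] at c1 c2 c3 ⊢
      have := le_abs_self L
      have := neg_abs_le L
      have z := mul_nonneg y0.le y1
      constructor <;> nlinarith [mul_le_mul_of_nonneg_left c1.1 y1, mul_le_mul_of_nonneg_left c1.2 y1,
        mul_le_mul_of_nonneg_left c2.1 y0.le, mul_le_mul_of_nonneg_left c2.2 y0.le,
        mul_le_mul_of_nonneg_left c3.1 y1, mul_le_mul_of_nonneg_left c3.2 y1]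
    · rw [sum_add_distrib, ← mul_sum]
      nlinarith [sum_geometric_two_le K, e N K, abs_nonneg L]
  have d : ∀ j n : ℕ, D l j n = ∑' k, (1 - t (k + 1)) ^ (j + 1) * t (k + 1) ^ n := by
    intro j
    induction j with
    | zero => exact fun n => by simp [D, l]
    | succ j ih =>
      intro n
      rw [D, ih, ih, ← (v j n).tsum_sub (v j _)]
      exact tsum_congr fun k => by ring
  refine ⟨l, ⟨l0, i, tendsto_iff_norm_sub_tendsto_zero.mpr (squeeze_zero (fun _ => norm_nonneg _)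
    (fun N => ?_) ((i.comp (tendsto_add_atTop_nat 1)).const_div_atTop (2 + 2 * (B + |L|))))⟩,
    fun j _ n => d j n ▸ tsum_nonneg fun k => (mul_pos (pow_pos (q _) _) (pow_pos (p _) _)).le⟩
  have := sum_pos (fun n _ => l0 n) (nonempty_range_add_one (n := N))
  rw [div_sub' this.ne', norm_div, Real.norm_of_nonneg this.le, mul_comm]
  exact div_le_div_of_nonneg_right (k _) this.le

theorem clus {B a b : ℝ} {s : ℕ → ℝ} (h : ∀ n, |s n| ≤ B)
    (c : ∀ x < 1, ∃ t, x < t ∧ t < 1 ∧ A s t ∈ Set.Icc a b) :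
    ∃ L ∈ Set.Icc a b, ∃ l, Adm s l L ∧ FullyMono l := by
  choose t t1 t2 t3 using fun k : ℕ => c (1 - 1 / (k + 1)) (sub_lt_self _ Nat.one_div_pos_of_nat)
  obtain ⟨L, m, φ, f, g⟩ := isCompact_Icc.tendsto_subseq t3
  refine ⟨L, m, main h fun ε e x c => ?_⟩
  obtain ⟨k, c1, c2⟩ := ((Metric.tendsto_nhds.mp g ε e).and (((tendsto_one_div_add_atTop_nhds_zero_nat.const_sub
    1).comp f.tendsto_atTop).eventually (lt_mem_nhds (c.trans_eq (sub_zero _).symm)))).exists
  exact ⟨_, c2.trans (t1 _), t2 _, c1⟩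

theorem result :
    (∀ s : ℕ → ℝ, (∃ B, ∀ n, |s n| ≤ B) → ∃ l L, Adm s l L ∧ FullyMono l ∧ Antitone l) ∧
    ∃ s : ℕ → ℝ, (∃ B, ∀ n, |s n| ≤ B) ∧ ∃ l l' L L', Adm s l L ∧ FullyMono l ∧
      Adm s l' L' ∧ FullyMono l' ∧ L ≠ L' := by
  refine ⟨fun s ⟨B, h⟩ => ?_, ?_⟩
  · obtain ⟨L, -, l, a, b⟩ := clus (a := -B) (b := B) h fun x c => by
      obtain ⟨t, a, b⟩ := exists_between (max_lt c one_pos)
      exact ⟨t, (le_max_left _ _).trans_lt a, b, by
        simpa [abs_le] using tail ((le_max_right _ _).trans a.le) b h 0⟩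
    exact ⟨l, L, a, b, antitone_nat_of_succ_le fun n => sub_nonneg.mp (b 1 le_rfl n)⟩
  let s : ℕ → ℝ := fun n => (-1) ^ Nat.log 16 n
  have h : ∀ n, |s n| ≤ 1 := fun n => by simp [s]
  have k : ∀ r : ℕ, ∀ x < 1, ∃ t, x < t ∧ t < 1 ∧ |A s t - (-1) ^ r| ≤ 2 / 3 := fun r x c => by
    have : Tendsto (fun j : ℕ => (5 / 6 : ℝ) ^ ((16 ^ (2 * j + r) : ℕ) : ℝ)⁻¹) atTop (𝓝 1) := by
      simpa [Function.comp_def] using ((Real.continuous_const_rpow (a := 5 / 6) (by norm_num)).tendsto 0).comp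
        (tendsto_inv_atTop_zero.comp (tendsto_natCast_atTop_atTop.comp ((tendsto_pow_atTop_atTop_of_one_lt
        (by norm_num : 1 < 16)).comp (tendsto_atTop_mono (f := id) (g := fun j => 2 * j + r)
        (fun j => by simp only [id]; omega) tendsto_id))))
    obtain ⟨j, e⟩ := (this.eventually (lt_mem_nhds c)).exists
    set t := (5 / 6 : ℝ) ^ ((16 ^ (2 * j + r) : ℕ) : ℝ)⁻¹
    have t0 : 0 ≤ t := by positivity
    have t1 : t < 1 := Real.rpow_lt_one (by norm_num) (by norm_num) (by positivity)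
    have t2 : t ^ 16 ^ (2 * j + r) = 5 / 6 := Real.rpow_inv_natCast_pow (by norm_num) (by positivity)
    have m : 16 ^ (2 * j + r) ≤ 16 ^ (2 * j + r + 1) := Nat.pow_le_pow_right (by norm_num) (by omega)
    have a := tail t0 t1 h (16 ^ (2 * j + r + 1))
    have b : |∑ n ∈ range (16 ^ (2 * j + r)), (1 - t) * t ^ n * s n| ≤ 1 / 6 := by
      refine (abs_sum_le_sum_abs _ _).trans ((sum_le_sum (g := fun n => (1 - t) * t ^ n)
        fun n _ => by simp [s, abs_mul, abs_of_pos (sub_pos.mpr t1), abs_of_nonneg t0]).trans ?_)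
      rw [← mul_sum, mul_neg_geom_sum, t2]
      norm_num
    have d : ∑ n ∈ Ico (16 ^ (2 * j + r)) (16 ^ (2 * j + r + 1)), (1 - t) * t ^ n * s n =
        ∑ n ∈ Ico (16 ^ (2 * j + r)) (16 ^ (2 * j + r + 1)), (-1) ^ r * ((1 - t) * t ^ n) :=
      sum_congr rfl fun n c => by
        have : s n = (-1) ^ r := by
          simp [s, Nat.log_eq_of_pow_le_of_lt_pow (mem_Ico.mp c).1 (mem_Ico.mp c).2, pow_add]
        rw [this, mul_comm]
    rw [← sum_range_add_sum_Ico _ m, d, ← mul_sum, sum_Ico_eq_sub _ m, ← mul_sum, ← mul_sum, mul_neg_geom_sum,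
      mul_neg_geom_sum, pow_succ 16, pow_mul t, t2] at a
    refine ⟨t, e, t1, ?_⟩
    rw [abs_le] at a b ⊢
    rcases neg_one_pow_eq_or ℝ r with z | z <;> rw [z] at a ⊢ <;> norm_num at a ⊢ <;>
      constructor <;> linarith [a.1, a.2, b.1, b.2]
  obtain ⟨L, c, l, a, b⟩ := clus (a := 1 / 3) (b := 2) h fun x c => (k 0 x c).imp fun t ⟨a, b, c⟩ =>
    ⟨a, b, by rw [abs_le] at c; constructor <;> linarith [c.1, c.2]⟩
  obtain ⟨L', c', l', a', b'⟩ := clus (a := -2) (b := -1 / 3) h fun x c => (k 1 x c).imp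
    fun t ⟨a, b, c⟩ => ⟨a, b, by rw [abs_le] at c; constructor <;> linarith [c.1, c.2]⟩
  exact ⟨s, ⟨1, h⟩, l, l', L, L', a, b, a', b', by linarith [c.1, c'.2] |> ne_of_gt⟩

end Pool.Agent.Results.MP_968b24_an.Both
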